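import Mathlib

/-!
# Day's bound `g±(3, h) ≤ 2h³ + 2h² + 8h + 1`

Day's set `{a₁, h, a₃}`, with `(a₁, a₃) = (2, h² + h + 4)` for odd `h` and `(1, h² + h + 1)` for
even `h`, is a `B_h` set over `ℤ` in `ℤ_n` for every `n > 2 h a₃`.
-/

namespace Pool.Agent.Results.MP_66a881_co.DayBound

/-- `A` is a `B_h` set over `ℤ`: the map `λ ↦ ∑ λ_a a` is injective on the integer vectors
`(λ_a)_{a ∈ A}` with `∑ |λ_a| = h`. -/
def IsBhOverZ {G : Type*} [AddCommGroup G] (h : ℕ) (A : Finset G) : Prop :=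
  ∀ c d : G → ℤ, ∑ a ∈ A, (c a).natAbs = h → ∑ a ∈ A, (d a).natAbs = h →
    ∑ a ∈ A, c a • a = ∑ a ∈ A, d a • a → ∀ a ∈ A, c a = d a

/-- `σ±(ℤ_n, h)`: the largest size of a `B_h` set over `ℤ` in `ℤ_n` (`0` if there is none). -/
noncomputable def sigmaPM (n h : ℕ) : ℕ :=
  sSup {k : ℕ | ∃ A : Finset (ZMod n), A.card = k ∧ IsBhOverZ h A}

/-- `g±(m, h)`: the least positive integer `g` with `σ±(ℤ_n, h) ≥ m` for every `n ≥ g`. -/
noncomputable def gPM (m h : ℕ) : ℕ :=
  sInf {g : ℕ | 0 < g ∧ ∀ n : ℕ, g ≤ n → m ≤ sigmaPM n h}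

theorem even_pos (h x y z : ℤ) (hh : 2 ≤ h) (he : h % 2 = 0)
    (heq : x + h * y + (h ^ 2 + h + 1) * z = 0) (hN : |x| + |y| + |z| ≤ 2 * h)
    (hp : (|x| + |y| + |z|) % 2 = 0) (hz : 1 ≤ z) : False := by
  obtain ⟨k, hk⟩ : ∃ k, k = y + (h + 1) * z := ⟨_, rfl⟩
  have hy : y = k - (h + 1) * z := by rw [hk]; ring
  have hx : x = -z - k * h := by
    rw [hk]; linear_combination heq
  have az : |z| = z := abs_of_nonneg (by omega)
  rcases le_or_gt 1 k with hk1 | hk0
  · have ax : |x| = z + k * h := by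
      rw [hx, abs_of_nonpos (by nlinarith)]; ring
    have ay : -y ≤ |y| := neg_le_abs y
    nlinarith
  · have hk0' : k ≤ 0 := by omega
    rcases le_or_gt 2 z with hz2 | hz1
    · have ay : -y ≤ |y| := neg_le_abs y
      have ax : 0 ≤ |x| := abs_nonneg x
      nlinarith
    · have hz1' : z = 1 := by omega
      subst hz1'
      rcases lt_trichotomy k (-1) with hk2 | hk2 | hk2
      · have ay : -y ≤ |y| := neg_le_abs y
        have ax : x ≤ |x| := le_abs_self x
        nlinarith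
      · subst hk2
        have ax : |x| = h - 1 := by rw [hx, abs_of_nonneg (by omega)]; ring
        have ay : |y| = h + 2 := by rw [hy, abs_of_nonpos (by omega)]; ring
        omega
      · have hk3 : k = 0 := by omega
        subst hk3
        have ax : |x| = 1 := by rw [hx]; norm_num
        have ay : |y| = h + 1 := by rw [hy, abs_of_nonpos (by omega)]; ring
        omega

theorem even_case (h x y z : ℤ) (hh : 2 ≤ h) (he : h % 2 = 0)
    (heq : x + h * y + (h ^ 2 + h + 1) * z = 0) (hN : |x| + |y| + |z| ≤ 2 * h)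
    (hp : (|x| + |y| + |z|) % 2 = 0) : x = 0 ∧ y = 0 ∧ z = 0 := by
  rcases lt_trichotomy z 0 with hz | hz | hz
  · exfalso
    exact even_pos h (-x) (-y) (-z) hh he (by linear_combination -heq) (by simpa using hN)
      (by simpa using hp) (by omega)
  · subst hz
    have hx : x = -(h * y) := by linear_combination heq
    have key : |x| + |y| = (h + 1) * |y| := by
      rw [hx, abs_neg, abs_mul, abs_of_nonneg (by omega : 0 ≤ h)]; ring
    have hy0 : 0 ≤ |y| := abs_nonneg y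
    simp only [abs_zero, add_zero] at hN hp
    have hy2 : |y| < 2 := by nlinarith
    have hy : |y| = 0 ∨ |y| = 1 := by omega
    rcases hy with hy | hy
    · rw [abs_eq_zero] at hy
      subst hy
      exact ⟨by simpa using hx, rfl, rfl⟩
    · exfalso
      rw [key, hy] at hp
      omega
  · exfalso
    exact even_pos h x y z hh he heq hN hp (by omega)

theorem odd_pos (h x y z : ℤ) (hh : 1 ≤ h) (he : h % 2 = 1)
    (heq : 2 * x + h * y + (h ^ 2 + h + 4) * z = 0) (hN : |x| + |y| + |z| ≤ 2 * h)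
    (hp : (|x| + |y| + |z|) % 2 = 0) (hz : 1 ≤ z) : False := by
  obtain ⟨r, hr⟩ : ∃ r, h = 2 * r + 1 := ⟨h / 2, by omega⟩
  have hy2 : ∃ w, y = 2 * w := by
    refine ⟨-x - r * y - (2 * r ^ 2 + 3 * r + 3) * z, ?_⟩
    subst hr
    linear_combination heq
  obtain ⟨w, hw⟩ := hy2
  obtain ⟨k, hk⟩ : ∃ k, k = w + (r + 1) * z := ⟨_, rfl⟩
  have hy : y = 2 * k - (h + 1) * z := by rw [hk, hw, hr]; ring
  have hx : x = -2 * z - k * h := by
    have h2 : 2 * x = 2 * (-2 * z - k * h) := by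
      rw [hy] at heq
      linear_combination heq
    linarith
  have az : |z| = z := abs_of_nonneg (by omega)
  rcases le_or_gt 1 k with hk1 | hk0
  · have ax : |x| = 2 * z + k * h := by
      rw [hx, abs_of_nonpos (by nlinarith)]; ring
    have ay : -y ≤ |y| := neg_le_abs y
    have ay0 : 0 ≤ |y| := abs_nonneg y
    rcases le_or_gt 3 h with h3 | h3
    · nlinarith
    · have h1 : h = 1 := by omega
      subst h1
      nlinarith
  · have hk0' : k ≤ 0 := by omega
    have ay : -y ≤ |y| := neg_le_abs y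
    rcases le_or_gt 2 z with hz2 | hz1
    · have ax : 0 ≤ |x| := abs_nonneg x
      nlinarith
    · have hz1' : z = 1 := by omega
      subst hz1'
      rcases lt_or_ge k 0 with hk2 | hk2
      · have ax : x ≤ |x| := le_abs_self x
        nlinarith
      · have hk3 : k = 0 := by omega
        subst hk3
        have ax : |x| = 2 := by rw [hx]; norm_num
        have ay' : |y| = h + 1 := by rw [hy, abs_of_nonpos (by omega)]; ring
        rw [ax, ay', az] at hp
        omega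

theorem odd_case (h x y z : ℤ) (hh : 1 ≤ h) (he : h % 2 = 1)
    (heq : 2 * x + h * y + (h ^ 2 + h + 4) * z = 0) (hN : |x| + |y| + |z| ≤ 2 * h)
    (hp : (|x| + |y| + |z|) % 2 = 0) : x = 0 ∧ y = 0 ∧ z = 0 := by
  rcases lt_trichotomy z 0 with hz | hz | hz
  · exfalso
    exact odd_pos h (-x) (-y) (-z) hh he (by linear_combination -heq) (by simpa using hN)
      (by simpa using hp) (by omega)
  · subst hz
    obtain ⟨r, hr⟩ : ∃ r, h = 2 * r + 1 := ⟨h / 2, by omega⟩
    have hy2 : ∃ w, y = 2 * w := by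
      refine ⟨-x - r * y, ?_⟩
      subst hr
      linear_combination heq
    obtain ⟨w, hw⟩ := hy2
    have hx : x = -(h * w) := by
      have : 2 * x = 2 * (-(h * w)) := by rw [hw] at heq; linear_combination heq
      linarith
    have ax : |x| = h * |w| := by
      rw [hx, abs_neg, abs_mul, abs_of_nonneg (by omega : 0 ≤ h)]
    have ay : |y| = 2 * |w| := by rw [hw, abs_mul]; norm_num
    have hw0 : 0 ≤ |w| := abs_nonneg w
    simp only [abs_zero, add_zero] at hN hp
    rw [ax, ay] at hN hp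
    have hw2 : |w| < 2 := by nlinarith
    have hw' : |w| = 0 ∨ |w| = 1 := by omega
    rcases hw' with hw' | hw'
    · rw [abs_eq_zero] at hw'
      subst hw'
      exact ⟨by simpa using hx, by simpa using hw, rfl⟩
    · exfalso
      rw [hw'] at hp
      omega
  · exfalso
    exact odd_pos h x y z hh he heq hN hp (by omega)

/-- The general reduction: a triple `a₁, a₂ ≤ a₃` of positive integers is a `B_h` set over `ℤ`
in `ℤ_n` for all `n > 2 h a₃` if it has no nonzero relation of even norm at most `2 h`. -/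
theorem reduce (n h : ℕ) (a b c : ℕ) (ha : a ≤ c) (hb : b ≤ c) (hn : 2 * h * c < n)
    (hab : a ≠ b) (hac : a ≠ c) (hbc : b ≠ c) (hh : 0 < h)
    (key : ∀ x y z : ℤ, (a : ℤ) * x + (b : ℤ) * y + (c : ℤ) * z = 0 →
      |x| + |y| + |z| ≤ 2 * (h : ℤ) → (|x| + |y| + |z|) % 2 = 0 → x = 0 ∧ y = 0 ∧ z = 0) :
    ∃ A : Finset (ZMod n), A.card = 3 ∧ IsBhOverZ h A := by
  have hcn : c < n := by nlinarith
  have inj : ∀ u v : ℕ, u ≤ c → v ≤ c → u ≠ v → ((u : ℕ) : ZMod n) ≠ ((v : ℕ) : ZMod n) := by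
    intro u v hu hv huv he
    rw [ZMod.natCast_eq_natCast_iff'] at he
    rw [Nat.mod_eq_of_lt (by omega), Nat.mod_eq_of_lt (by omega)] at he
    exact huv he
  have e1 : (a : ZMod n) ∉ ({(b : ZMod n), (c : ZMod n)} : Finset (ZMod n)) := by
    simp only [Finset.mem_insert, Finset.mem_singleton, not_or]
    exact ⟨inj a b ha hb hab, inj a c ha le_rfl hac⟩
  have e2 : (b : ZMod n) ∉ ({(c : ZMod n)} : Finset (ZMod n)) := by
    simp only [Finset.mem_singleton]
    exact inj b c hb le_rfl hbc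
  refine ⟨{(a : ZMod n), (b : ZMod n), (c : ZMod n)}, ?_, ?_⟩
  · rw [Finset.card_insert_of_notMem e1, Finset.card_insert_of_notMem e2, Finset.card_singleton]
  · intro f g hf hg hfg
    rw [Finset.sum_insert e1, Finset.sum_insert e2, Finset.sum_singleton] at hf hg
    rw [Finset.sum_insert e1, Finset.sum_insert e2, Finset.sum_singleton,
      Finset.sum_insert e1, Finset.sum_insert e2, Finset.sum_singleton] at hfg
    obtain ⟨f1, hf1⟩ : ∃ f1, f (a : ZMod n) = f1 := ⟨_, rfl⟩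
    obtain ⟨f2, hf2⟩ : ∃ f2, f (b : ZMod n) = f2 := ⟨_, rfl⟩
    obtain ⟨f3, hf3⟩ : ∃ f3, f (c : ZMod n) = f3 := ⟨_, rfl⟩
    obtain ⟨g1, hg1⟩ : ∃ g1, g (a : ZMod n) = g1 := ⟨_, rfl⟩
    obtain ⟨g2, hg2⟩ : ∃ g2, g (b : ZMod n) = g2 := ⟨_, rfl⟩
    obtain ⟨g3, hg3⟩ : ∃ g3, g (c : ZMod n) = g3 := ⟨_, rfl⟩
    rw [hf1, hf2, hf3] at hf hfg
    rw [hg1, hg2, hg3] at hg hfg
    have hz : (((a : ℤ) * (f1 - g1) + (b : ℤ) * (f2 - g2) + (c : ℤ) * (f3 - g3) : ℤ) : ZMod n)
        = 0 := by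
      simp only [zsmul_eq_mul] at hfg
      push_cast
      linear_combination hfg
    rw [ZMod.intCast_zmod_eq_zero_iff_dvd] at hz
    have hsum : |f1 - g1| + |f2 - g2| + |f3 - g3| ≤ 2 * (h : ℤ) := by
      rw [Int.abs_eq_natAbs, Int.abs_eq_natAbs, Int.abs_eq_natAbs]
      omega
    have hpar : (|f1 - g1| + |f2 - g2| + |f3 - g3|) % 2 = 0 := by
      rw [Int.abs_eq_natAbs, Int.abs_eq_natAbs, Int.abs_eq_natAbs]
      omega
    have ha' : (a : ℤ) ≤ c := by exact_mod_cast ha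
    have hb' : (b : ℤ) ≤ c := by exact_mod_cast hb
    have hn' : 2 * (h : ℤ) * (c : ℤ) < (n : ℤ) := by exact_mod_cast hn
    have hc0 : (0 : ℤ) ≤ c := by positivity
    have habs : |(a : ℤ) * (f1 - g1) + (b : ℤ) * (f2 - g2) + (c : ℤ) * (f3 - g3)| < (n : ℤ) := by
      have t1 : |(a : ℤ) * (f1 - g1)| ≤ c * |f1 - g1| := by
        rw [abs_mul, abs_of_nonneg (by positivity : (0 : ℤ) ≤ a)]
        exact mul_le_mul_of_nonneg_right ha' (abs_nonneg _)
      have t2 : |(b : ℤ) * (f2 - g2)| ≤ c * |f2 - g2| := by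
        rw [abs_mul, abs_of_nonneg (by positivity : (0 : ℤ) ≤ b)]
        exact mul_le_mul_of_nonneg_right hb' (abs_nonneg _)
      have t3 : |(c : ℤ) * (f3 - g3)| ≤ c * |f3 - g3| := by
        rw [abs_mul, abs_of_nonneg hc0]
      have t4 := abs_add_le ((a : ℤ) * (f1 - g1) + (b : ℤ) * (f2 - g2)) ((c : ℤ) * (f3 - g3))
      have t5 := abs_add_le ((a : ℤ) * (f1 - g1)) ((b : ℤ) * (f2 - g2))
      have t6 : (c : ℤ) * (|f1 - g1| + |f2 - g2| + |f3 - g3|) ≤ c * (2 * (h : ℤ)) :=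
        mul_le_mul_of_nonneg_left hsum hc0
      have t7 : (c : ℤ) * (|f1 - g1| + |f2 - g2| + |f3 - g3|) =
          c * |f1 - g1| + c * |f2 - g2| + c * |f3 - g3| := by ring
      have t8 : (c : ℤ) * (2 * (h : ℤ)) = 2 * (h : ℤ) * (c : ℤ) := by ring
      linarith
    have h0 := Int.eq_zero_of_abs_lt_dvd hz habs
    obtain ⟨k1, k2, k3⟩ := key _ _ _ h0 hsum hpar
    intro u hu
    simp only [Finset.mem_insert, Finset.mem_singleton] at hu
    rcases hu with rfl | rfl | rfl
    · rw [hf1, hg1]; omega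
    · rw [hf2, hg2]; omega
    · rw [hf3, hg3]; omega

/-- For every `h ≥ 1` and `n ≥ 2h³ + 2h² + 8h + 1` there is a three-element `B_h` set over `ℤ` in
`ℤ_n`. -/
theorem exists_three (h n : ℕ) (hh : 0 < h) (hn : 2 * h ^ 3 + 2 * h ^ 2 + 8 * h + 1 ≤ n) :
    ∃ A : Finset (ZMod n), A.card = 3 ∧ IsBhOverZ h A := by
  rcases Nat.even_or_odd h with he | ho
  · obtain ⟨r, hr⟩ := he
    have hh2 : 2 ≤ h := by omega
    have e : 2 * h * (h ^ 2 + h + 1) = 2 * h ^ 3 + 2 * h ^ 2 + 2 * h := by ring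
    apply reduce n h 1 h (h ^ 2 + h + 1) (by omega) (by omega) (by omega)
      (by omega) (by omega) (by omega) hh
    intro x y z h1 h2 h3
    refine even_case (h : ℤ) x y z (by exact_mod_cast hh2) (by omega) ?_ h2 h3
    push_cast at h1
    linear_combination h1
  · obtain ⟨r, hr⟩ := ho
    have e : 2 * h * (h ^ 2 + h + 4) = 2 * h ^ 3 + 2 * h ^ 2 + 8 * h := by ring
    apply reduce n h 2 h (h ^ 2 + h + 4) (by omega) (by omega) (by omega)
      (by omega) (by omega) (by omega) hh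
    intro x y z h1 h2 h3
    refine odd_case (h : ℤ) x y z (by exact_mod_cast hh) (by omega) ?_ h2 h3
    push_cast at h1
    linear_combination h1

/-- Day's bound: `g±(3, h) ≤ 2h³ + 2h² + 8h + 1` for every positive integer `h`; the set of
admissible `g` in the definition of `g±(3, h)` contains this number (so it is nonempty). -/
theorem result (h : ℕ) (hh : 0 < h) :
    gPM 3 h ≤ 2 * h ^ 3 + 2 * h ^ 2 + 8 * h + 1 ∧
    ∀ n : ℕ, 2 * h ^ 3 + 2 * h ^ 2 + 8 * h + 1 ≤ n →
      ∃ A : Finset (ZMod n), A.card = 3 ∧ IsBhOverZ h A := by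
  refine ⟨?_, fun n hn => exists_three h n hh hn⟩
  apply Nat.sInf_le
  refine ⟨by omega, ?_⟩
  intro n hn
  have hn0 : NeZero n := ⟨by omega⟩
  obtain ⟨A, hA, hB⟩ := exists_three h n hh hn
  apply le_csSup
  · refine ⟨Fintype.card (ZMod n), ?_⟩
    rintro k ⟨B, rfl, -⟩
    exact Finset.card_le_univ B
  · exact ⟨A, hA, hB⟩

end Pool.Agent.Results.MP_66a881_co.DayBound
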